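import Mathlib

namespace Pool.Agent.Results.MP_6e0de5_an.No

open Filter Set MeasureTheory ProbabilityTheory

abbrev XX (k : ℕ → ℕ) : Type := ∀ i, Fin (k i)

def IsSys {k : ℕ → ℕ} (r : ℕ → XX k → ℤ) : Prop :=
  (∀ n x y, r n x = r n y ↔ ∀ i < n, x i = y i) ∧
    ∀ n x y, x n = y n → (r (n + 1) x ≤ r (n + 1) y ↔ r n x ≤ r n y)

def PP {k : ℕ → ℕ} (r : ℕ → XX k → ℤ) (x y : XX k) : Prop :=
  ∃ n, (∀ i, n ≤ i → x i = y i) ∧ r n x ≤ r n y

def cyl {k : ℕ → ℕ} (n : ℕ) (x : XX k) : Set (XX k) := {z | ∀ i < n, z i = x i}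

def hull {X : Type} (P : X → X → Prop) (S : Set X) : Set X :=
  ⋂₀ {D | S ⊆ D ∧ ∀ x y, P x y → y ∈ D → x ∈ D}

def EE {k : ℕ → ℕ} (r : ℕ → XX k → ℤ) (x : XX k) : Set (XX k) := ⋂ n, hull (PP r) (cyl n x)

def JJ {k : ℕ → ℕ} (r : ℕ → XX k → ℤ) (x : XX k) : Set (XX k) :=
  ⋂ n, hull (fun a b => PP r b a) (cyl n x)

noncomputable def mu (k : ℕ → ℕ) : Measure (XX k) := Measure.infinitePi fun _ => uniformOn univ

section
variable {k : ℕ → ℕ} {r : ℕ → XX k → ℤ}

theorem up (h : IsSys r) {n : ℕ} {x y : XX k} (a : ∀ i, n ≤ i → x i = y i) {m : ℕ} (hm : n ≤ m) :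
    r m x ≤ r m y ↔ r n x ≤ r n y := by
  induction m, hm using Nat.le_induction with
  | base => rfl
  | succ m hm ih => rw [h.2 m x y (a m hm), ih]

theorem PP.tr (h : IsSys r) {x y z : XX k} (a : PP r x y) (b : PP r y z) : PP r x z := by
  obtain ⟨n, a1, a2⟩ := a
  obtain ⟨m, b1, b2⟩ := b
  exact ⟨max n m, fun i hi => (a1 i (le_of_max_le_left hi)).trans (b1 i (le_of_max_le_right hi)),
    ((up h a1 (le_max_left _ _)).2 a2).trans ((up h b1 (le_max_right _ _)).2 b2)⟩

theorem mem_EE (h : IsSys r) {x z : XX k} : z ∈ EE r x ↔ ∀ n, ∃ u ∈ cyl n x, PP r z u :=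
  mem_iInter.trans (forall_congr' fun n => ⟨fun a => a {z | ∃ u ∈ cyl n x, PP r z u}
    ⟨fun u hu => ⟨u, hu, 0, fun _ _ => rfl, le_rfl⟩, fun _ _ b ⟨u, c, d⟩ => ⟨u, c, b.tr h d⟩⟩,
    fun ⟨_, a, b⟩ _ c => c.2 _ _ b (c.1 a)⟩)

def spl (n : ℕ) (x y : XX k) : XX k := fun i => if i < n then x i else y i

theorem spl_mem (n : ℕ) (x y : XX k) : spl n x y ∈ cyl n x := fun _ h => if_pos h

theorem spl_ge {n : ℕ} (x y : XX k) (i : ℕ) (h : n ≤ i) : y i = spl n x y i :=
  (if_neg (not_lt.2 h)).symm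

theorem cyl_anti {n m : ℕ} (h : n ≤ m) (x : XX k) : cyl m x ⊆ cyl n x :=
  fun _ a i hi => a i (hi.trans_le h)

theorem EE_of (h : IsSys r) {y z : XX k} (a : ∀ n, ∃ m, n ≤ m ∧ r m z ≤ r m y) : z ∈ EE r y :=
  (mem_EE h).2 fun n => let ⟨m, b, c⟩ := a n
    ⟨spl m y z, cyl_anti b y (spl_mem _ _ _), m, spl_ge y z,
      c.trans ((h.1 _ _ _).2 (spl_mem m y z)).ge⟩

theorem EE_mono (h : IsSys r) {x y : XX k} (a : PP r x y) : EE r x ⊆ EE r y := fun z hz => by
  obtain ⟨N, a1, a2⟩ := a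
  refine (mem_EE h).2 fun n => ?_
  obtain ⟨u, b, c⟩ := (mem_EE h).1 hz (max n N)
  refine ⟨spl (max n N) y u, cyl_anti (le_max_left _ _) y (spl_mem _ _ _), c.tr h ⟨_, spl_ge y u, ?_⟩⟩
  rw [(h.1 _ _ _).2 b, (h.1 _ _ _).2 (spl_mem _ y u)]
  exact (up h a1 (le_max_right _ _)).2 a2

end

def K (m : ℕ) : ℕ := 2 ^ (m + 2)

def kk (m : ℕ) : ℕ := K m + 1

def Q : ℕ → ℤ
  | 0 => 1
  | m + 1 => 2 * K m * Q m

def st (m : ℕ) (a : ℤ) (j : ℕ) : ℤ := if j < K m then 2 * K m * a + 2 * j else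
  if a < Q m then 2 * (K m - 1) * a + 1 else 2 * (K m - 1) * Q m + 2 * (a - Q m) + 1

def rr : ℕ → XX kk → ℤ
  | 0, _ => 1
  | m + 1, x => st m (rr m x) (x m)

theorem K4 (m : ℕ) : (4:ℤ) ≤ K m := by
  exact_mod_cast Nat.pow_le_pow_right two_pos (show 2 ≤ m + 2 by omega)

theorem Q_pos (m : ℕ) : (m:ℤ) < Q m := by
  induction m with
  | zero => exact one_pos
  | succ m ih => rw [Q]; push_cast; nlinarith [K4 m, Int.natCast_nonneg m]

theorem st_lt (m j : ℕ) {a b : ℤ} (h : a < b) : st m a j < st m b j := by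
  have := K4 m
  unfold st
  split_ifs <;> nlinarith

theorem st_inj {m i j : ℕ} (hi : i ≤ K m) (hj : j ≤ K m) {a b : ℤ} (h : st m a i = st m b j) :
    a = b ∧ i = j := by
  have h1 : i = j := by
    unfold st at h
    simp only [mul_assoc] at h
    by_cases c : i < K m <;> by_cases d : j < K m
    · rw [if_pos c, if_pos d] at h
      have c' : (i:ℤ) < K m := by exact_mod_cast c
      have d' : (j:ℤ) < K m := by exact_mod_cast d
      have : a = b := by
        by_contra e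
        rcases lt_or_gt_of_ne e with e | e <;>
          nlinarith [Int.natCast_nonneg i, Int.natCast_nonneg j]
      subst this
      omega
    · rw [if_pos c, if_neg d] at h; split_ifs at h <;> omega
    · rw [if_neg c, if_pos d] at h; split_ifs at h <;> omega
    · omega
  subst h1
  exact ⟨StrictMono.injective (f := fun a => st m a i) (fun _ _ => st_lt m i) h, rfl⟩

theorem sys : IsSys rr := by
  refine ⟨fun n x y => ?_, fun n x y h => ?_⟩
  · induction n with
    | zero => simp [rr]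
    | succ n ih =>
      refine ⟨fun h i hi => ?_, fun h => by rw [rr, rr, ih.2 fun i hi => h i (by omega), h n (by omega)]⟩
      obtain ⟨a, b⟩ := st_inj (Nat.lt_succ_iff.1 (x n).2) (Nat.lt_succ_iff.1 (y n).2) h
      rcases Nat.lt_succ_iff_lt_or_eq.1 hi with c | rfl
      exacts [ih.1 a i c, Fin.ext b]
  · rw [rr, rr, h]
    exact StrictMono.le_iff_le (f := fun a => st n a (y n)) fun _ _ => st_lt n _

theorem bd (m : ℕ) (x : XX kk) : 0 ≤ rr m x ∧ rr m x < 2 * Q m := by
  induction m with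
  | zero => simp [rr, Q]
  | succ m ih =>
    have := K4 m
    rw [rr, st, Q]
    split_ifs with a b
    · have : ((x m : ℕ) : ℤ) < K m := by exact_mod_cast a
      constructor <;> nlinarith [Int.natCast_nonneg (x m)]
    all_goals constructor <;> nlinarith [Q_pos m, Int.natCast_nonneg m]

theorem st_le (m : ℕ) (x : XX kk) : rr (m + 1) x + 1 ≤ 2 * K m * (rr m x + 1) ∧
    ((x m : ℕ) + 1 ≠ K m → rr (m + 1) x + 1 ≤ 2 * K m * rr m x + 2 * (K m - 1)) ∧
    (¬ (x m : ℕ) < K m → rr (m + 1) x < Q (m + 1)) ∧ (rr m x < Q m → rr (m + 1) x < Q (m + 1)) := by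
  have := K4 m
  have := bd m x
  rw [rr, st, Q]
  split_ifs with a b
  · have c : ((x m : ℕ) : ℤ) < K m := by exact_mod_cast a
    exact ⟨by nlinarith, fun d => by omega, fun d => (d a).elim, fun d => by nlinarith⟩
  all_goals exact ⟨by nlinarith, fun _ => by nlinarith, fun _ => by nlinarith, fun _ => by nlinarith⟩

theorem Qr (m : ℕ) : (0:ℝ) < Q m := by exact_mod_cast (Int.natCast_nonneg m).trans_lt (Q_pos m)

theorem Kr (m : ℕ) : (4:ℝ) ≤ K m := by exact_mod_cast K4 m

theorem u_anti (x : XX kk) : Antitone fun m => ((rr m x : ℝ) + 1) / Q m :=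
  antitone_nat_of_succ_le fun m => by
    have : ((rr (m + 1) x : ℤ) : ℝ) + 1 ≤ 2 * K m * (rr m x + 1) := by exact_mod_cast (st_le m x).1
    rw [div_le_div_iff₀ (Qr _) (Qr _), Q]
    push_cast
    nlinarith [Qr m]

def CC (m : ℕ) (w : XX kk) : Set (XX kk) := cyl m w ∩ ⋂ i, {z | m ≤ i → (z i : ℕ) < K i}

theorem l_mono {m : ℕ} {z : XX kk} (h : ∀ i, m ≤ i → (z i : ℕ) < K i) {n : ℕ} (hn : m ≤ n) :
    (rr m z : ℝ) / Q m ≤ rr n z / Q n := by
  induction n, hn using Nat.le_induction with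
  | base => rfl
  | succ n hn ih =>
    refine ih.trans ?_
    rw [div_le_div_iff₀ (Qr _) (Qr _), rr, st, if_pos (h n hn), Q]
    push_cast
    nlinarith [Qr n, Nat.cast_nonneg (α := ℝ) (z n)]

instance (i : ℕ) : Nonempty (Fin (kk i)) := ⟨⟨0, Nat.succ_pos _⟩⟩

instance : IsProbabilityMeasure (mu kk) := by unfold mu; infer_instance

theorem mu_pi (s : Finset ℕ) (w : XX kk) :
    mu kk {z | ∀ i ∈ s, z i = w i} = ∏ i ∈ s, (kk i : ENNReal)⁻¹ :=
  (Measure.infinitePi_pi _ (t := fun i => {w i}) fun _ _ => measurableSet_singleton _).trans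
    (Finset.prod_congr rfl fun i _ => by simp [uniformOn_univ])

theorem CC_meas (m : ℕ) (w : XX kk) : MeasurableSet (CC m w) := by
  unfold CC cyl
  measurability

theorem CC_pos (m : ℕ) (w : XX kk) : mu kk (CC m w) ≠ 0 := fun h => by
  have h1 : mu kk (cyl m w) = ∏ i ∈ Finset.range m, (kk i : ENNReal)⁻¹ := by
    rw [← mu_pi _ w]; simp only [Finset.mem_range, cyl]
  have h2 : mu kk (cyl m w) ≤ mu kk (cyl m w) * 2⁻¹ := by
    refine (measure_mono (t := CC m w ∪ ⋃ i, {z | ∀ j ∈ insert (m + i) (Finset.range m),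
      z j = Function.update w (m + i) (Fin.last _) j}) fun z hz => ?_).trans
      ((measure_union_le _ _).trans ?_)
    · refine or_iff_not_imp_left.2 fun a => ?_
      obtain ⟨i, b, c⟩ : ∃ i, m ≤ i ∧ ¬ (z i : ℕ) < K i := by
        by_contra d
        exact a ⟨hz, mem_iInter.2 fun i b => by_contra fun c => d ⟨i, b, c⟩⟩
      obtain ⟨i, rfl⟩ := Nat.exists_eq_add_of_le b
      refine mem_iUnion.2 ⟨i, fun j hj => ?_⟩
      rcases Finset.mem_insert.1 hj with rfl | d
      · rw [Function.update_self]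
        exact Fin.ext (le_antisymm (Nat.lt_succ_iff.1 (z _).2) (not_lt.1 c))
      · have := Finset.mem_range.1 d
        rw [Function.update_of_ne (by omega)]; exact hz j this
    rw [h, zero_add]
    refine (measure_iUnion_le _).trans ((ENNReal.tsum_le_tsum (g := fun i =>
      mu kk (cyl m w) * (2⁻¹ ^ i * (2⁻¹ * 2⁻¹))) fun i => ?_).trans (le_of_eq ?_))
    · rw [mu_pi, Finset.prod_insert (by simp), h1, mul_comm, ← sq, ← pow_add, ← ENNReal.inv_pow]
      refine mul_le_mul_right (ENNReal.inv_le_inv.2 ?_) _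
      exact_mod_cast (Nat.pow_le_pow_right two_pos (show i + 2 ≤ m + i + 2 by omega)).trans
        (Nat.le_succ _)
    · rw [ENNReal.tsum_mul_left, ENNReal.tsum_mul_right, ENNReal.tsum_geometric_two, ← mul_assoc 2,
        ENNReal.mul_inv_cancel two_ne_zero ENNReal.ofNat_ne_top, one_mul]
  refine (ENNReal.half_lt_self ?_ (measure_ne_top _ _)).not_ge h2
  rw [h1]
  exact Finset.prod_ne_zero_iff.2 fun i _ => ENNReal.inv_ne_zero.2 (ENNReal.natCast_ne_top _)

theorem lt_of {x y w : XX kk} (a : PP rr x y) {m n : ℕ}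
    (h1 : ((rr n x : ℝ) + 1) / Q n ≤ rr m w / Q m)
    (h2 : ∀ n, ∃ l, n ≤ l ∧ ((rr m w : ℝ) + 1) / Q m ≤ rr l y / Q l) :
    mu kk (EE rr x) < mu kk (EE rr y) := by
  have e : ∀ z ∈ CC m w, rr m z = rr m w := fun z hz => (sys.1 _ _ _).2 hz.1
  refine (ENNReal.lt_add_right (measure_ne_top _ _) (CC_pos m w)).trans_le ?_
  rw [← measure_union _ (CC_meas m w)]
  · refine measure_mono (union_subset (EE_mono sys a) fun z hz => EE_of sys fun n => ?_)
    obtain ⟨l, b, c⟩ := h2 (max n m)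
    refine ⟨l, le_of_max_le_left b, ?_⟩
    have := (div_le_div_iff_of_pos_right (Qr l)).1 ((u_anti z (le_of_max_le_right b)).trans
      (e z hz ▸ c))
    exact_mod_cast (lt_add_one _).le.trans this
  · refine disjoint_left.2 fun z hz b => ?_
    obtain ⟨u, c, l, d1, d2⟩ := (mem_EE sys).1 hz n
    have d3 : (rr (max l (max m n)) z : ℝ) ≤ rr (max l (max m n)) u := by
      exact_mod_cast (up sys d1 (le_max_left _ (max m n))).2 d2
    have d4 := u_anti u ((le_max_right m n).trans (le_max_right l _))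
    have d5 := l_mono (mem_iInter.1 b.2) ((le_max_left m n).trans (le_max_right l _))
    dsimp only at d4
    rw [(sys.1 _ _ _).2 c] at d4
    rw [e z b] at d5
    have := (div_le_div_iff_of_pos_right (Qr _)).1 ((d4.trans h1).trans d5)
    linarith

theorem gap {x y : XX kk} {N : ℕ} (a : ∀ i, N ≤ i → x i = y i) (b : rr N x < rr N y) :
    ∃ c > 0, ∀ᶠ m in atTop, c ≤ ((rr m y : ℝ) - rr m x) / Q m := by
  obtain ⟨M, hM, h⟩ : ∃ M, N ≤ M ∧ ∀ m, M ≤ m → (y m : ℕ) < K m ∨ rr m y < Q m := by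
    by_cases c : ∀ m, N ≤ m → (y m : ℕ) < K m
    · exact ⟨N, le_rfl, fun m h => Or.inl (c m h)⟩
    push Not at c
    obtain ⟨l, c, d⟩ := c
    refine ⟨l + 1, by omega, fun m h => Or.inr ?_⟩
    induction m, h using Nat.le_induction with
    | base => exact (st_le l y).2.2.1 (not_lt.2 d)
    | succ m _ ih => exact (st_le m y).2.2.2 ih
  have lt : ∀ m, N ≤ m → rr m x < rr m y := fun m hm =>
    not_le.1 fun c => b.not_ge ((up sys (fun i h => (a i h).symm) hm).1 c)
  obtain ⟨d, hd⟩ : ∃ d : ℝ, d = ((rr M y : ℝ) - rr M x) / Q M := ⟨_, rfl⟩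
  have d0 : 0 < d := hd ▸ div_pos (sub_pos.2 (by exact_mod_cast lt M hM)) (Qr M)
  have key : ∀ m, M ≤ m → d * (1 / 2 + 2 / K m) ≤ ((rr m y : ℝ) - rr m x) / Q m := fun m hm => by
    induction m, hm using Nat.le_induction with
    | base =>
      rw [← hd]
      exact mul_le_of_le_one_right d0.le (by
        linarith [div_le_div_of_nonneg_left zero_le_two four_pos (Kr M)])
    | succ m hm ih =>
      have k4 := Kr m
      have l1 := lt m (hM.trans hm)
      have l2 : (K m - 1 : ℤ) * 2 * (rr m y - rr m x) ≤ rr (m + 1) y - rr (m + 1) x := by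
        rw [rr, rr, a m (hM.trans hm), st, st]
        by_cases c : (y m : ℕ) < K m
        · rw [if_pos c, if_pos c]; linarith
        · have := (h m hm).resolve_left c
          rw [if_neg c, if_neg c, if_pos this, if_pos (l1.trans this)]; linarith
      have l3 : (K m - 1 : ℝ) * 2 * (rr m y - rr m x) ≤ rr (m + 1) y - rr (m + 1) x := by
        exact_mod_cast l2
      have l4 : (K (m + 1) : ℝ) = 2 * K m := by rw [K, K]; push_cast; ring
      rw [le_div_iff₀ (Qr _)] at ih ⊢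
      rw [Q, l4]
      push_cast
      refine le_trans ?_ ((mul_le_mul_of_nonneg_left ih (by linarith)).trans l3)
      have := mul_pos d0 (Qr m)
      have l5 : (1 / 2 + 2 / (2 * K m) : ℝ) * (2 * K m) ≤ (K m - 1) * 2 * (1 / 2 + 2 / K m) := by
        field_simp
        nlinarith
      nlinarith
  refine ⟨d / 2, by positivity, (eventually_ge_atTop M).mono fun m hm => le_trans ?_ (key m hm)⟩
  have : (0:ℝ) ≤ 2 / K m := by positivity
  nlinarith

def top : XX kk := fun i => ⟨K i - 1, by unfold kk; omega⟩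

theorem top_lt (i : ℕ) : (top i : ℕ) + 1 = K i := Nat.sub_add_cancel (Nat.pow_pos two_pos)

theorem result : ∃ (k : ℕ → ℕ) (r : ℕ → XX k → ℤ), (∀ i, 2 ≤ k i) ∧ IsSys r ∧
    (∀ x y, PP r x y → x ≠ y → mu k (EE r x) < mu k (EE r y)) ∧
    ∃ x, 0 < mu k (EE r x ∩ JJ r x) := by
  refine ⟨kk, rr, fun i => by have := K4 i; unfold kk; omega, sys, fun x y h hne => ?_,
    top, (pos_iff_ne_zero.2 (CC_pos 0 top)).trans_le (measure_mono fun z hz => ⟨?_, ?_⟩)⟩
  · obtain ⟨N, a, b⟩ := id h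
    have b' : rr N x < rr N y := b.lt_of_ne fun c => hne (funext fun i =>
      (lt_or_ge i N).elim ((sys.1 _ _ _).1 c i) (a i))
    by_cases c : ∃ M, ∀ m, M ≤ m → (x m : ℕ) + 1 = K m
    · obtain ⟨N, a, b', c⟩ : ∃ N, (∀ i, N ≤ i → x i = y i) ∧ rr N x < rr N y ∧
          ∀ m, N ≤ m → (x m : ℕ) + 1 = K m := let ⟨M, c⟩ := c
        ⟨max N M, fun i h => a i (le_of_max_le_left h), not_le.1 fun c => b'.not_ge
          ((up sys (fun i h => (a i h).symm) (le_max_left _ _)).1 c),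
          fun i h => c i (le_of_max_le_right h)⟩
      have e : rr (N + 1) (spl N y fun _ => ⟨0, Nat.succ_pos _⟩) = 2 * K N * rr N y := by
        rw [rr, (sys.1 _ _ _).2 (spl_mem N y _), ← spl_ge y _ N le_rfl]
        exact (if_pos (Nat.pow_pos two_pos)).trans (add_zero _)
      have d : ∀ m, N ≤ m → (y m : ℕ) + 1 = K m := fun m hm => a m hm ▸ c m hm
      refine lt_of h (n := N) (m := N + 1) (w := spl N y fun _ => ⟨0, Nat.succ_pos _⟩) ?_
        fun n => ⟨max n (N + 1), le_max_left _ _, le_trans ?_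
          (l_mono (fun i hi => by have := d i (by omega); omega) (le_max_right _ _))⟩
      · have : (rr N x : ℝ) + 1 ≤ rr N y := by exact_mod_cast b'
        rw [e, Q, div_le_div_iff₀ (Qr _) (by exact_mod_cast Qr (N + 1))]
        push_cast
        nlinarith [mul_pos (four_pos.trans_le (Kr N)) (Qr N)]
      · refine div_le_div_of_nonneg_right ?_ (Qr _).le
        have := d N le_rfl
        have := K4 N
        have : 2 * K N * rr N y + 1 ≤ rr (N + 1) y := by rw [rr, st, if_pos (by omega)]; omega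
        rw [e]; exact_mod_cast this
    push Not at c
    obtain ⟨g, g0, hg⟩ := gap a b'
    have hb : BddBelow (range fun m => ((rr m x : ℝ) + 1) / Q m) :=
      ⟨0, by rintro _ ⟨m, rfl⟩; exact div_nonneg (by exact_mod_cast (bd m x).1.trans (by simp)) (Qr m).le⟩
    obtain ⟨M, hM⟩ := exists_lt_of_ciInf_lt (lt_add_of_pos_right
      (⨅ m, ((rr m x : ℝ) + 1) / Q m) (half_pos g0))
    obtain ⟨m, m1, m2⟩ := c M
    have t : ((top m : ℕ) : ℝ) = K m - 1 := eq_sub_of_add_eq (by exact_mod_cast top_lt m)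
    have e : (rr (m + 1) (spl m x top) : ℝ) = 2 * K m * rr m x + 2 * (K m - 1) := by
      rw [rr, (sys.1 _ _ _).2 (spl_mem m x _), ← spl_ge x _ m le_rfl, st,
        if_pos (by have := top_lt m; omega), ← t]
      push_cast; rfl
    refine lt_of h (n := m + 1) (m := m + 1) (w := spl m x top)
      (div_le_div_of_nonneg_right ?_ (Qr _).le) fun n => ?_
    · rw [e]; exact_mod_cast (st_le m x).2.1 m2
    obtain ⟨p, hp⟩ := exists_nat_gt (2 / g)
    obtain ⟨l, l1, l2, l3⟩ := (hg.and ((eventually_ge_atTop n).and (eventually_ge_atTop p))).exists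
    refine ⟨l, l2, ?_⟩
    have s1 := u_anti (spl m x top) (Nat.le_succ m)
    have s2 := u_anti x m1
    have s3 := ciInf_le hb l
    have s4 : 1 / (Q l : ℝ) ≤ g / 2 := by
      rw [one_div_le (Qr l) (half_pos g0), one_div_div]
      exact hp.le.trans (by exact_mod_cast (Int.ofNat_le.2 l3).trans (Q_pos l).le)
    dsimp only at s1 s2 s3
    rw [(sys.1 _ _ _).2 (spl_mem m x _)] at s1
    rw [add_div] at s3
    rw [sub_div] at l1
    linarith
  · refine EE_of sys fun n => ⟨n, le_rfl, ?_⟩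
    induction n with
    | zero => rfl
    | succ n ih =>
      have a : (z n : ℕ) < K n := mem_iInter.1 hz.2 n (Nat.zero_le _)
      have b := top_lt n
      rw [rr, rr, st, st, if_pos a, if_pos (by omega)]
      have : ((z n : ℕ) : ℤ) ≤ (top n : ℕ) := by omega
      nlinarith [K4 n]
  · refine mem_iInter.2 fun n D hD => hD.2 _ (spl (n + 1) (spl n top fun _ => Fin.last _) z)
      ⟨n + 1, fun i hi => (spl_ge _ z i hi).symm, ?_⟩ (hD.1 fun i hi =>
        (spl_mem _ _ z i (by omega)).trans (spl_mem _ _ _ i hi))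
    have a := l_mono (mem_iInter.1 hz.2) (Nat.zero_le (n + 1))
    rw [rr, Q, div_self (by simp), one_le_div (Qr _)] at a
    refine ((st_le n _).2.2.1 ?_).le.trans (by exact_mod_cast a)
    rw [spl_mem _ _ z n (by omega), ← spl_ge top _ n le_rfl]
    exact lt_irrefl _

end Pool.Agent.Results.MP_6e0de5_an.No
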